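import Mathlib

/-!
# LM-GLOBAL: the argument
-/

set_option autoImplicit false

namespace Pool.Agent.J6H92.LM

open Function

variable {K : Type} [Field K] {m : ℕ}

theorem inv {Z : Type} (g : (Fin m → K) → Z) (h : ∀ i y s, g (update y i s) = g y)
    (y : Fin m → K) : g y = g 0 := by
  have key : ∀ (T : Finset (Fin m)) (y : Fin m → K), (∀ i, i ∉ T → y i = 0) → g y = g 0 := by
    intro T
    induction T using Finset.induction_on with
    | empty =>
      intro y hy
      have : y = 0 := funext fun i => hy i (Finset.notMem_empty i)
      rw [this]
    | insert j T hj ih =>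
      intro y hy
      rw [← h j y 0]
      apply ih
      intro i hi
      by_cases hij : i = j
      · rw [hij, update_self]
      · rw [update_of_ne hij]
        refine hy i fun hmem => ?_
        rcases Finset.mem_insert.1 hmem with h1 | h1
        · exact hij h1
        · exact hi h1
  exact key Finset.univ y fun i hi => absurd (Finset.mem_univ i) hi

theorem core (i0 : Fin m) (f : (Fin m → K) → K)
    (ha : ∀ j y s t, f (update y j s) = f (update y j t) → s = t)
    (hb : ∀ j, j ≠ i0 → ∀ y, ∃ w : K × K, w ≠ 0 ∧
      ∀ s t s' t', w.1 * s + w.2 * t = w.1 * s' + w.2 * t' →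
        f (update (update y i0 s) j t) = f (update (update y i0 s') j t'))
    (h0 : ∀ s, f (update 0 i0 s) = s) :
    ∃ a : Fin m → K, ∀ y, f y = ∑ i, a i * y i := by
  set c : (Fin m → K) → K := fun y => f (update y i0 0) with hc
  have hA : ∀ j, j ≠ i0 → ∀ y, (∀ s, f (update y i0 s) = s + c y) →
      ∃ β : K, β ≠ 0 ∧ ∀ s t, f (update (update y i0 s) j t) = s + β * (t - y j) + c y := by
    intro j hj y hy
    obtain ⟨w, -, hw'⟩ := hb j hj y
    have hw1 : w.1 ≠ 0 := by
      intro h1
      have h2 := hw' 0 (y j) 1 (y j) (by rw [h1]; ring)
      rw [update_comm (Ne.symm hj), update_comm (Ne.symm hj)] at h2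
      exact zero_ne_one (ha i0 _ _ _ h2)
    have hw2 : w.2 ≠ 0 := by
      intro h1
      have h2 := hw' 0 0 0 1 (by rw [h1]; ring)
      exact zero_ne_one (ha j _ _ _ h2)
    refine ⟨w.2 / w.1, div_ne_zero hw2 hw1, fun s t => ?_⟩
    have h3 := hw' s t (s + w.2 / w.1 * (t - y j)) (y j) (by field_simp; ring)
    rw [h3, update_comm (Ne.symm hj), update_eq_self, hy]
  have hQ : ∀ y, (∀ s, f (update y i0 s) = s + c y) := by
    have hstep : ∀ j y t, (∀ s, f (update y i0 s) = s + c y) →
        (∀ s, f (update (update y j t) i0 s) = s + c (update y j t)) := by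
      intro j y t hy s
      by_cases hj : j = i0
      · subst hj
        simp only [hc, update_idem]
        exact hy s
      · obtain ⟨β, -, h⟩ := hA j hj y hy
        have h1 : ∀ s, f (update (update y j t) i0 s) = s + β * (t - y j) + c y := by
          intro s
          rw [← update_comm (Ne.symm hj) s t y]
          exact h s t
        have h2 : c (update y j t) = 0 + β * (t - y j) + c y := h1 0
        rw [h1, h2]
        ring
    have h3 := inv (fun y => (∀ s, f (update y i0 s) = s + c y)) (fun j y t => by
      apply propext
      constructor
      · intro h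
        have := hstep j (update y j t) (y j) h
        rwa [update_idem, update_eq_self] at this
      · exact hstep j y t)
    intro y
    have h4 := h3 y
    refine Eq.mpr h4 fun s => ?_
    have h5 : c 0 = 0 := h0 0
    rw [h5, h0, add_zero]
  have hS : ∀ j, j ≠ i0 → ∀ y, ∃ β : K, β ≠ 0 ∧
      ∀ t, c (update y j t) = c y + β * (t - y j) := by
    intro j hj y
    obtain ⟨β, hβ, h⟩ := hA j hj y (hQ y)
    refine ⟨β, hβ, fun t => ?_⟩
    have h1 := h 0 t
    rw [update_comm (Ne.symm hj) 0 t y] at h1
    have h2 : c (update y j t) = 0 + β * (t - y j) + c y := h1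
    rw [h2]
    ring
  have hc0 : ∀ y s, c (update y i0 s) = c y := by
    intro y s
    simp only [hc, update_idem]
  let b : Fin m → (Fin m → K) → K := fun j y => c (update y j (y j + 1)) - c y
  have hb' : ∀ j, j ≠ i0 → ∀ y, b j y ≠ 0 ∧
      ∀ t, c (update y j t) = c y + b j y * (t - y j) := by
    intro j hj y
    obtain ⟨β, hβ, h⟩ := hS j hj y
    have h1 : b j y = β := by
      show c (update y j (y j + 1)) - c y = β
      rw [h]
      ring
    rw [h1]
    exact ⟨hβ, h⟩
  have hbi : ∀ j, j ≠ i0 → ∀ i y s, b j (update y i s) = b j y := by
    intro j hj i y s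
    by_cases hi0 : i = i0
    · subst hi0
      show c (update (update y i s) j ((update y i s) j + 1)) - c (update y i s) =
        c (update y j (y j + 1)) - c y
      rw [hc0, update_of_ne hj, update_comm (Ne.symm hj), hc0]
    · by_cases hij : i = j
      · subst hij
        have h1 := (hb' i hj (update y i s)).2 (s + 1)
        rw [update_idem, update_self, (hb' i hj y).2 (s + 1), (hb' i hj y).2 s] at h1
        linear_combination -h1
      · have hφ : ∀ s t, c (update (update y i s) j t) =
            c (update y i s) + b j (update y i s) * (t - y j) := by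
          intro s t
          have := (hb' j hj (update y i s)).2 t
          rwa [update_of_ne (Ne.symm hij)] at this
        have hψ : ∀ s t, c (update (update y i s) j t) =
            c (update y j t) + b i (update y j t) * (s - y i) := by
          intro s t
          have := (hb' i hi0 (update y j t)).2 s
          rw [update_of_ne hij] at this
          rw [update_comm hij s t y]
          exact this
        have hB : ∀ s, b j (update y i s) = (c (update y j 1) - c (update y j 0)) +
            (b i (update y j 1) - b i (update y j 0)) * (s - y i) := by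
          intro s
          have h1 := hφ s 1
          have h2 := hφ s 0
          rw [hψ] at h1 h2
          linear_combination h2 - h1
        have hδ : b i (update y j 1) - b i (update y j 0) = 0 := by
          by_contra hne
          have h2 := hB (y i - (c (update y j 1) - c (update y j 0)) /
            (b i (update y j 1) - b i (update y j 0)))
          apply (hb' j hj (update y i (y i - (c (update y j 1) - c (update y j 0)) /
            (b i (update y j 1) - b i (update y j 0))))).1
          rw [h2]
          field_simp
          ring
        have h3 := hB (y i)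
        rw [update_eq_self] at h3
        rw [hB s, h3, hδ]
        ring
  have hconst : ∀ j, j ≠ i0 → ∀ y, b j y = b j 0 := fun j hj => inv (b j) (hbi j hj)
  let a : Fin m → K := fun j => if j = i0 then 0 else b j 0
  have hlin : ∀ y, c y = ∑ j, a j * y j := by
    intro y
    have h1 := inv (fun y => c y - ∑ j, a j * y j) (fun i y s => by
      show c (update y i s) - ∑ j, a j * (update y i s) j = c y - ∑ j, a j * y j
      have h2 : ∑ j, a j * (update y i s) j = ∑ j, a j * y j + a i * (s - y i) := by
        rw [← Finset.add_sum_erase _ _ (Finset.mem_univ i),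
          ← Finset.add_sum_erase Finset.univ (fun j => a j * y j) (Finset.mem_univ i), update_self]
        have h3 : ∑ j ∈ Finset.univ.erase i, a j * update y i s j =
            ∑ j ∈ Finset.univ.erase i, a j * y j :=
          Finset.sum_congr rfl fun j hj => by rw [update_of_ne (Finset.ne_of_mem_erase hj)]
        rw [h3]
        ring
      rw [h2]
      by_cases hi : i = i0
      · have h4 : a i = 0 := if_pos hi
        rw [h4, hi, hc0]
        ring
      · have h4 : a i = b i 0 := if_neg hi
        rw [(hb' i hi y).2 s, hconst i hi y, h4]
        ring) y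
    have h3 : c 0 = 0 := h0 0
    have h5 : c y - ∑ j, a j * y j = c 0 - ∑ j, a j * (0 : Fin m → K) j := h1
    rw [h3] at h5
    simp only [Pi.zero_apply, mul_zero, Finset.sum_const_zero, sub_zero] at h5
    exact sub_eq_zero.1 h5
  refine ⟨fun j => a j + if j = i0 then 1 else 0, fun y => ?_⟩
  have h1 := hQ y (y i0)
  rw [update_eq_self] at h1
  rw [h1, hlin]
  simp only [add_mul, Finset.sum_add_distrib, ite_mul, one_mul, zero_mul, Finset.sum_ite_eq',
    Finset.mem_univ, if_true]
  ring

end Pool.Agent.J6H92.LM
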