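import Pool.Agent.J6H84.LM.Stm
import Pool.Agent.J6H92.LM.GlobalA

/-!
# LM-GLOBAL
-/

set_option autoImplicit false

namespace Pool.Agent.J6H92.LM

open Function

theorem main : Pool.Agent.J6H84.LM.S_Global := by
  intro K _ X m i0 F ha hb hc
  have hbij : Function.Bijective (fun s : K => F (update 0 i0 s)) :=
    ⟨fun s t h => ha i0 0 s t h, fun x => hc 0 x⟩
  let e := Equiv.ofBijective _ hbij
  obtain ⟨a, hA⟩ := core i0 (fun y => e.symm (F y))
    (fun j y s t h => ha j y s t (e.symm.injective h)) (fun j hj y => by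
      obtain ⟨w, hw, h⟩ := hb j hj y
      exact ⟨w, hw, fun s t s' t' hh => by rw [h s t s' t' hh]⟩)
    (fun s => e.symm_apply_apply s)
  refine ⟨a, fun y y' h => ?_⟩
  apply e.symm.injective
  have h1 := hA y
  have h2 := hA y'
  exact h1.trans (h.trans h2.symm)

end Pool.Agent.J6H92.LM
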